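import Pool.Agent.H577.Kim.Stm3

/-! Kim2 ROOTU (for helper577): infinitely `p`-divisible elements of finite extensions of `ℚ_[p]`
are roots of unity. -/

set_option autoImplicit false

open scoped NNReal Topology
open Metric Set

namespace Pool.Agent.H350.Kim577

variable (p : ℕ) [hp : Fact p.Prime]

theorem mem_adj (a γ : PadicAlgCl p)
    (h : ∀ σ : PadicAlgCl p ≃ₐ[ℚ_[p]] PadicAlgCl p, σ a = a → σ γ = γ) :
    γ ∈ IntermediateField.adjoin ℚ_[p] ({a} : Set (PadicAlgCl p)) := by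
  have hgal : IsGalois ℚ_[p] (PadicAlgCl p) := inferInstance
  rw [← InfiniteGalois.fixedField_fixingSubgroup
    (IntermediateField.adjoin ℚ_[p] ({a} : Set (PadicAlgCl p)))]
  rw [IntermediateField.mem_fixedField_iff]
  intro σ hσ
  apply h
  rw [IntermediateField.mem_fixingSubgroup_iff] at hσ
  exact hσ a (IntermediateField.subset_adjoin _ _ rfl)

theorem compact_ball (L : IntermediateField ℚ_[p] (PadicAlgCl p)) [FiniteDimensional ℚ_[p] L]
    (R : ℝ) : IsCompact {x : PadicAlgCl p | x ∈ L ∧ ‖x‖ ≤ R} := by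
  let S : Submodule ℚ_[p] (PadicAlgCl p) := Subalgebra.toSubmodule L.toSubalgebra
  have hfd : FiniteDimensional ℚ_[p] S := (inferInstance : FiniteDimensional ℚ_[p] L)
  have hpr : ProperSpace S := FiniteDimensional.proper ℚ_[p] S
  have h1 : IsCompact (closedBall (0 : S) R) := isCompact_closedBall 0 R
  have h2 := h1.image (continuous_subtype_val (p := fun x => x ∈ S))
  have e : (Subtype.val '' (closedBall (0 : S) R)) = {x : PadicAlgCl p | x ∈ L ∧ ‖x‖ ≤ R} := by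
    ext x
    simp only [mem_image, mem_closedBall, dist_zero_right, Subtype.exists, mem_ofPred_eq]
    constructor
    · rintro ⟨y, hy, h3, rfl⟩
      exact ⟨hy, h3⟩
    · rintro ⟨hx, h3⟩
      exact ⟨x, hx, h3, rfl⟩
  rw [← e]
  exact h2

/-- the elements of norm one which are infinitely divisible: the norm is one -/
theorem norm_le_one (L : IntermediateField ℚ_[p] (PadicAlgCl p)) [FiniteDimensional ℚ_[p] L]
    (E : PadicAlgCl p) (h : ∀ k : ℕ, ∃ γ ∈ L, γ ^ (p ^ k) = E) : ‖E‖ ≤ 1 := by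
  by_contra hE
  push Not at hE
  have hp1 : 1 < p := hp.out.one_lt
  set A : Set (PadicAlgCl p) := {x | x ∈ L ∧ ‖x‖ ≤ ‖E‖} ∩ (closedBall (0 : PadicAlgCl p) 1)ᶜ with hA
  have hAc : IsCompact A := by
    apply (compact_ball p L ‖E‖).inter_right
    rw [isClosed_compl_iff]
    exact IsUltrametricDist.isOpen_closedBall _ one_ne_zero
  have hγ : ∀ k : ℕ, ∀ γ : PadicAlgCl p, γ ∈ L → γ ^ (p ^ k) = E → γ ∈ A := by
    intro k γ hL hk
    have h1 : ‖γ‖ ^ (p ^ k) = ‖E‖ := by rw [← norm_pow, hk]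
    have h2 : 1 < ‖γ‖ := by
      by_contra hle
      push Not at hle
      have := pow_le_one₀ (n := p ^ k) (norm_nonneg γ) hle
      linarith
    have h3 : ‖γ‖ ≤ ‖γ‖ ^ (p ^ k) := by
      apply le_self_pow₀ h2.le
      exact (pow_pos (by omega) k).ne'
    refine ⟨⟨hL, h1 ▸ h3⟩, ?_⟩
    rw [mem_compl_iff, mem_closedBall, dist_zero_right]
    linarith
  have hne : A.Nonempty := by
    obtain ⟨γ, h1, h2⟩ := h 0
    exact ⟨γ, hγ 0 γ h1 h2⟩
  obtain ⟨x, hx, hmin⟩ := hAc.exists_isMinOn hne (continuous_norm.continuousOn)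
  have hx1 : 1 < ‖x‖ := by
    have := hx.2
    rw [mem_compl_iff, mem_closedBall, dist_zero_right] at this
    linarith
  obtain ⟨n, hn⟩ := pow_unbounded_of_one_lt ‖E‖ hx1
  obtain ⟨γ, h1, h2⟩ := h n
  have h3 : ‖x‖ ≤ ‖γ‖ := hmin (hγ n γ h1 h2)
  have h4 : ‖γ‖ ^ (p ^ n) = ‖E‖ := by rw [← norm_pow, h2]
  have h5 : n ≤ p ^ n := (Nat.lt_pow_self hp1).le
  have h6 : ‖x‖ ^ n ≤ ‖γ‖ ^ (p ^ n) :=
    (pow_le_pow_left₀ (norm_nonneg x) h3 n).trans (pow_le_pow_right₀ (by linarith) h5)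
  linarith

theorem exists_rho (L : IntermediateField ℚ_[p] (PadicAlgCl p)) [FiniteDimensional ℚ_[p] L] :
    ∃ ρ : ℝ, ρ < 1 ∧ ∀ x ∈ L, ‖x‖ < 1 → ‖x‖ ≤ ρ := by
  set B : Set (PadicAlgCl p) := {x | x ∈ L ∧ ‖x‖ ≤ 1} ∩ ball (0 : PadicAlgCl p) 1 with hB
  have hBc : IsCompact B := (compact_ball p L 1).inter_right (IsUltrametricDist.isClosed_ball _ _)
  have hne : B.Nonempty := ⟨0, ⟨L.zero_mem, by simp⟩, by simp⟩
  obtain ⟨x, hx, hmax⟩ := hBc.exists_isMaxOn hne (continuous_norm.continuousOn)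
  refine ⟨‖x‖, by simpa using hx.2, fun y hy h1 => ?_⟩
  exact hmax ⟨⟨hy, h1.le⟩, by simpa using h1⟩

theorem exists_n (L : IntermediateField ℚ_[p] (PadicAlgCl p)) [FiniteDimensional ℚ_[p] L] :
    ∃ n : ℕ, 0 < n ∧ ∀ x ∈ L, ‖x‖ = 1 → ‖x ^ n - 1‖ < 1 := by
  obtain ⟨T, hT⟩ := (compact_ball p L 1).elim_finite_subcover
    (fun t : PadicAlgCl p => ball t 1) (fun t => isOpen_ball)
    (fun x _ => mem_iUnion.mpr ⟨x, mem_ball_self one_pos⟩)
  refine ⟨T.card.factorial, Nat.factorial_pos _, fun x hx hx1 => ?_⟩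
  -- pigeonhole
  have hmem : ∀ i : ℕ, ∃ t ∈ T, x ^ i ∈ ball t 1 := by
    intro i
    have h1 : x ^ i ∈ {x : PadicAlgCl p | x ∈ L ∧ ‖x‖ ≤ 1} := by
      refine ⟨pow_mem hx i, ?_⟩
      rw [norm_pow, hx1, one_pow]
    have h2 := hT h1
    simp only [mem_iUnion] at h2
    obtain ⟨t, ht, h3⟩ := h2
    exact ⟨t, ht, h3⟩
  choose f hfT hf using hmem
  obtain ⟨i, hi, j, hj, hij, heq⟩ := Finset.exists_ne_map_eq_of_card_lt_of_maps_to
    (s := Finset.range (T.card + 1)) (t := T) (f := f) (by simp) (fun i _ => hfT i)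
  have key : ∀ i j : ℕ, i < j → j < T.card + 1 → f i = f j → ‖x ^ T.card.factorial - 1‖ < 1 := by
    intro i j hij hj heq
    have h1 : ‖x ^ j - x ^ i‖ < 1 := by
      have h2 := hf i
      have h3 := hf j
      rw [mem_ball, dist_eq_norm] at h2 h3
      rw [heq] at h2
      have h4 := IsUltrametricDist.norm_add_le_max (x ^ j - f j) (-(x ^ i - f j))
      have e : x ^ j - f j + -(x ^ i - f j) = x ^ j - x ^ i := by ring
      rw [e, norm_neg] at h4
      exact lt_of_le_of_lt h4 (max_lt h3 h2)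
    have h5 : ‖x ^ (j - i) - 1‖ < 1 := by
      have e : x ^ j - x ^ i = x ^ i * (x ^ (j - i) - 1) := by
        rw [mul_sub, mul_one, ← pow_add, Nat.add_sub_cancel' hij.le]
      rw [e, norm_mul, norm_pow, hx1, one_pow, one_mul] at h1
      exact h1
    obtain ⟨m, hm⟩ : (j - i) ∣ T.card.factorial := Nat.dvd_factorial (by omega) (by omega)
    rw [hm, pow_mul]
    set y := x ^ (j - i) with hy
    have hy1 : ‖y‖ = 1 := by rw [hy, norm_pow, hx1, one_pow]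
    clear_value y
    clear hm
    induction m with
    | zero => simp
    | succ m ih =>
      have e : y ^ (m + 1) - 1 = y * (y ^ m - 1) + (y - 1) := by ring
      rw [e]
      have h6 := IsUltrametricDist.norm_add_le_max (y * (y ^ m - 1)) (y - 1)
      rw [norm_mul, hy1, one_mul] at h6
      exact lt_of_le_of_lt h6 (max_lt ih h5)
  rcases lt_or_gt_of_ne hij with h | h
  · exact key i j h (Finset.mem_range.mp hj) heq
  · exact key j i h (Finset.mem_range.mp hi) heq.symm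

theorem pow_sub_one_le (y : PadicAlgCl p) (hy : ‖y‖ = 1) (m : ℕ) : ‖y ^ m - 1‖ ≤ ‖y - 1‖ := by
  induction m with
  | zero => simp
  | succ m ih =>
    have e : y ^ (m + 1) - 1 = y * (y ^ m - 1) + (y - 1) := by ring
    rw [e]
    have h6 := IsUltrametricDist.norm_add_le_max (y * (y ^ m - 1)) (y - 1)
    rw [norm_mul, hy, one_mul] at h6
    exact h6.trans (max_le ih le_rfl)

theorem step (y : PadicAlgCl p) (hy : ‖y‖ = 1) (c : ℝ) (hc : ‖y - 1‖ ≤ c)
    (hcp : ‖(p : PadicAlgCl p)‖ ≤ c) : ‖y ^ p - 1‖ ≤ c * ‖y - 1‖ := by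
  have e : y ^ p - 1 = (∑ i ∈ Finset.range p, y ^ i) * (y - 1) := (geom_sum_mul y p).symm
  rw [e, norm_mul]
  apply mul_le_mul_of_nonneg_right _ (norm_nonneg _)
  have hc0 : 0 ≤ c := (norm_nonneg _).trans hc
  have e2 : (∑ i ∈ Finset.range p, y ^ i) = (∑ i ∈ Finset.range p, (y ^ i - 1)) + (p : PadicAlgCl p) := by
    rw [Finset.sum_sub_distrib]
    simp
  rw [e2]
  refine (IsUltrametricDist.norm_add_le_max _ _).trans (max_le ?_ hcp)
  apply IsUltrametricDist.norm_sum_le_of_forall_le_of_nonneg hc0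
  intro i _
  exact (pow_sub_one_le p y hy i).trans hc

theorem iter (x : PadicAlgCl p) (hx : ‖x‖ = 1) (c : ℝ) (hc : ‖x - 1‖ ≤ c)
    (hcp : ‖(p : PadicAlgCl p)‖ ≤ c) (k : ℕ) :
    ‖x ^ (p ^ k) - 1‖ ≤ c ^ k * ‖x - 1‖ := by
  have hc0 : 0 ≤ c := (norm_nonneg _).trans hc
  induction k with
  | zero => simp
  | succ k ih =>
    rw [pow_succ, pow_mul]
    have h1 : ‖x ^ p ^ k‖ = 1 := by rw [norm_pow, hx, one_pow]
    have h2 : ‖x ^ p ^ k - 1‖ ≤ c := (pow_sub_one_le p x hx _).trans hc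
    refine (step p _ h1 c h2 hcp).trans ?_
    calc c * ‖x ^ p ^ k - 1‖ ≤ c * (c ^ k * ‖x - 1‖) := mul_le_mul_of_nonneg_left ih hc0
      _ = c ^ (k + 1) * ‖x - 1‖ := by ring

theorem main (L : IntermediateField ℚ_[p] (PadicAlgCl p)) [FiniteDimensional ℚ_[p] L]
    (E : PadicAlgCl p) (hE0 : E ≠ 0) (h : ∀ k : ℕ, ∃ γ ∈ L, γ ^ (p ^ k) = E) :
    ∃ m : ℕ, 0 < m ∧ E ^ m = 1 := by
  have hE1 : ‖E‖ = 1 := by
    apply le_antisymm (norm_le_one p L E h)
    have h2 := norm_le_one p L E⁻¹ (fun k => by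
      obtain ⟨γ, h1, h2⟩ := h k
      exact ⟨γ⁻¹, inv_mem h1, by rw [inv_pow, h2]⟩)
    rw [norm_inv] at h2
    have h3 : 0 < ‖E‖ := norm_pos_iff.mpr hE0
    exact (inv_le_one₀ h3).mp h2
  obtain ⟨ρ, hρ1, hρ⟩ := exists_rho p L
  obtain ⟨n, hn0, hn⟩ := exists_n p L
  refine ⟨n, hn0, ?_⟩
  have hpn : ‖(p : PadicAlgCl p)‖ < 1 := by
    have h1 : ((p : ℚ_[p]) : PadicAlgCl p) = (p : PadicAlgCl p) := map_natCast _ p
    rw [← h1, PadicAlgCl.norm_extends]
    exact Padic.norm_p_lt_one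
  set c : ℝ := max ρ ‖(p : PadicAlgCl p)‖ with hc
  have hc1 : c < 1 := max_lt hρ1 hpn
  have hc0 : 0 ≤ c := le_trans (norm_nonneg _) (le_max_right _ _)
  have hbd : ∀ k : ℕ, ‖E ^ n - 1‖ ≤ c ^ k := by
    intro k
    obtain ⟨γ, hγL, hγ⟩ := h k
    have hγ1 : ‖γ‖ = 1 := by
      have h1 : ‖γ‖ ^ (p ^ k) = 1 := by rw [← norm_pow, hγ, hE1]
      exact (pow_eq_one_iff_of_nonneg (norm_nonneg γ) (pow_pos hp.out.pos k).ne').mp h1
    have h2 : ‖γ ^ n - 1‖ < 1 := hn γ hγL hγ1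
    have h3 : ‖γ ^ n - 1‖ ≤ c :=
      (hρ _ (sub_mem (pow_mem hγL n) L.one_mem) h2).trans (le_max_left _ _)
    have h4 : ‖γ ^ n‖ = 1 := by rw [norm_pow, hγ1, one_pow]
    have h5 := iter p (γ ^ n) h4 c h3 (le_max_right _ _) k
    have e : (γ ^ n) ^ (p ^ k) = E ^ n := by
      rw [← pow_mul, mul_comm, pow_mul, hγ]
    rw [e] at h5
    refine h5.trans ?_
    calc c ^ k * ‖γ ^ n - 1‖ ≤ c ^ k * 1 := by
          apply mul_le_mul_of_nonneg_left h2.le (by positivity)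
      _ = c ^ k := mul_one _
  have hlim := tendsto_pow_atTop_nhds_zero_of_lt_one hc0 hc1
  have h0 : ‖E ^ n - 1‖ ≤ 0 := ge_of_tendsto' hlim hbd
  have h1 : E ^ n - 1 = 0 := norm_le_zero_iff.mp h0
  exact sub_eq_zero.mp h1

theorem rootu : Pool.Agent.H577.Kim.S_ROOTU := by
  intro p _ a E hE h
  have hfd : FiniteDimensional ℚ_[p] (IntermediateField.adjoin ℚ_[p] ({a} : Set (PadicAlgCl p))) :=
    IntermediateField.adjoin.finiteDimensional
      (Algebra.IsIntegral.isIntegral (R := ℚ_[p]) (A := PadicAlgCl p) a)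
  apply main p (IntermediateField.adjoin ℚ_[p] ({a} : Set (PadicAlgCl p))) E hE
  intro k
  obtain ⟨γ, h1, h2⟩ := h k
  exact ⟨γ, mem_adj p a γ h2, h1⟩

end Pool.Agent.H350.Kim577
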